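import Mathlib
import Pool.Agent.Helper94.Tarski.Indic

set_option autoImplicit false

namespace Pool.Agent.Results.MP_3cdb71_al.RightOrderable

theorem free_surj (H : Type) [Group H] [IsFreeGroup H] [Nontrivial H] :
    ∃ φ : H →* Multiplicative ℤ, Function.Surjective φ := by
  classical
  let e : H ≃* FreeGroup (IsFreeGroup.Generators H) := IsFreeGroup.toFreeGroup H
  have hne : Nonempty (IsFreeGroup.Generators H) := by
    by_contra hno
    rw [not_nonempty_iff] at hno
    obtain ⟨a, b, hab⟩ := exists_pair_ne H
    exact hab (e.injective (Subsingleton.elim _ _))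
  obtain ⟨i⟩ := hne
  refine ⟨(FreeGroup.lift (fun _ => Multiplicative.ofAdd (1 : ℤ))).comp e.toMonoidHom, ?_⟩
  intro k
  refine ⟨e.symm ((FreeGroup.of i) ^ (Multiplicative.toAdd k)), ?_⟩
  simp [← ofAdd_zsmul]

theorem map_self {X : Type} [DecidableEq X] (h : X → X) (L : List (X × Bool))
    (hL : ∀ p ∈ L, h p.1 = p.1) : FreeGroup.map h (FreeGroup.mk L) = FreeGroup.mk L := by
  rw [FreeGroup.map.mk]
  congr 1
  conv_rhs => rw [← List.map_id L]
  apply List.map_congr_left
  intro p hp
  exact Prod.ext (hL p hp) rfl

/-- Let `G` be relatively free (generated by a set `X` such that every map from `X` to `G` extends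
to an endomorphism) and right orderable. Then every nontrivial finitely generated subgroup of `G`
maps onto `ℤ`, and has a normal subgroup of index `2`. -/
theorem result :
    ∀ (G : Type) [Group G] (X : Set G), Subgroup.closure X = ⊤ →
      (∀ f : X → G, ∃ φ : G →* G, ∀ x : X, φ x = f x) →
      (∃ lo : LinearOrder G, ∀ a b c : G, lo.lt a b → lo.lt (a * c) (b * c)) →
        ∀ H : Subgroup G, H.FG → H ≠ ⊥ →
          (∃ φ : H →* Multiplicative ℤ, Function.Surjective φ) ∧
          ∃ N : Subgroup H, N.Normal ∧ N.index = 2 := by
  classical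
  rintro G _ X hX hfree ⟨lo, hlo⟩ H hH hHb
  have hnt : Nontrivial H := (Subgroup.nontrivial_iff_ne_bot H).2 hHb
  have main : ∃ φ : H →* Multiplicative ℤ, Function.Surjective φ := by
    by_cases hinj : Function.Injective (FreeGroup.lift (Subtype.val : X → G))
    · have hsurj : Function.Surjective (FreeGroup.lift (Subtype.val : X → G)) := by
        rw [← MonoidHom.range_eq_top, eq_top_iff, ← hX, Subgroup.closure_le]
        intro x hx
        exact ⟨FreeGroup.of ⟨x, hx⟩, by simp⟩
      let E : FreeGroup X ≃* G := MulEquiv.ofBijective _ ⟨hinj, hsurj⟩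
      have hG : IsFreeGroup G := IsFreeGroup.ofMulEquiv E
      have hHf : IsFreeGroup H := inferInstance
      exact free_surj H
    · have : ∃ w : FreeGroup X, w ≠ 1 ∧ FreeGroup.lift (Subtype.val : X → G) w = 1 := by
        by_contra hno
        push Not at hno
        apply hinj
        rw [injective_iff_map_eq_one]
        intro w hw
        by_contra h
        exact hno w h hw
      obtain ⟨w, hw, hw1⟩ := this
      have hlaw : ∀ f : X → G, FreeGroup.lift f w = 1 := by
        intro f
        obtain ⟨φ, hφ⟩ := hfree f
        have : FreeGroup.lift f = φ.comp (FreeGroup.lift (Subtype.val : X → G)) := by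
          ext x
          simp [hφ x]
        rw [this, MonoidHom.comp_apply, hw1, map_one]
      let S : Finset X := (w.toWord.map Prod.fst).toFinset
      have hSne : ∃ x₀ : X, x₀ ∈ S := by
        have : w.toWord ≠ [] := by
          intro h
          exact hw (FreeGroup.toWord_eq_nil_iff.1 h)
        obtain ⟨p, L, hpL⟩ := List.exists_cons_of_ne_nil this
        refine ⟨p.1, ?_⟩
        simp [S, hpL]
      obtain ⟨x₀, hx₀⟩ := hSne
      let e := S.equivFin
      let g' : X → Fin S.card := fun x => if h : x ∈ S then e ⟨x, h⟩ else e ⟨x₀, hx₀⟩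
      let s' : Fin S.card → X := fun i => (e.symm i : X)
      have hsg : FreeGroup.map s' (FreeGroup.map g' w) = w := by
        have h1 : FreeGroup.map s' (FreeGroup.map g' w) = FreeGroup.map (s' ∘ g') w := by
          rw [FreeGroup.map.comp]
        rw [h1]
        conv_lhs => rw [← FreeGroup.mk_toWord (x := w)]
        rw [map_self]
        · exact FreeGroup.mk_toWord
        · intro p hp
          have hpS : p.1 ∈ S := by
            simp only [S, List.mem_toFinset, List.mem_map]
            exact ⟨p, hp, rfl⟩
          simp [g', s', hpS]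
      have hvne : FreeGroup.map g' w ≠ 1 := by
        intro h
        rw [h, map_one] at hsg
        exact hw hsg.symm
      have hmul' := hlo
      refine Pool.Agent.Helper94.Tarski.surj_of_law (G := H)
        ((Group.fg_iff_subgroup_fg H).2 hH)
        (fun a b => lo.lt (a : G) (b : G))
        (fun a h => ((lo.lt_iff_le_not_ge _ _).1 h).2 (lo.le_refl _))
        (by
          intro a b d h1 h2
          let _ := lo
          exact lt_trans (a := (a : G)) h1 h2)
        (by
          intro a b
          let _ := lo
          rcases lt_trichotomy (a : G) (b : G) with h | h | h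
          · exact Or.inl h
          · exact Or.inr (Or.inl (Subtype.ext h))
          · exact Or.inr (Or.inr h))
        (fun a b c h => hlo _ _ _ h) S.card (FreeGroup.map g' w) hvne ?_
      intro f
      have h1 := hlaw (fun x => (f (g' x) : G))
      have h2 : (FreeGroup.lift (fun x => (f (g' x) : G))) =
          H.subtype.comp ((FreeGroup.lift f).comp (FreeGroup.map g')) := by
        ext x
        simp
      rw [h2] at h1
      exact Subtype.ext h1
  refine ⟨main, ?_⟩
  obtain ⟨φ, hφ⟩ := main
  let ρ : Multiplicative ℤ →* Multiplicative (ZMod 2) :=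
    AddMonoidHom.toMultiplicative (Int.castAddHom (ZMod 2))
  have hρ : Function.Surjective ρ := by
    intro x
    obtain ⟨k, hk⟩ := ZMod.intCast_surjective (Multiplicative.toAdd x)
    exact ⟨Multiplicative.ofAdd k, congrArg Multiplicative.ofAdd hk⟩
  refine ⟨(ρ.comp φ).ker, inferInstance, ?_⟩
  have hcomp : Function.Surjective (ρ.comp φ) := by
    intro x
    obtain ⟨y, hy⟩ := hρ x
    obtain ⟨z, hz⟩ := hφ y
    exact ⟨z, by rw [MonoidHom.comp_apply, hz, hy]⟩
  rw [Subgroup.index_ker, MonoidHom.range_eq_top.2 hcomp, Subgroup.card_top]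
  exact Nat.card_zmod 2

end Pool.Agent.Results.MP_3cdb71_al.RightOrderable
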